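import Pool.Agent.Lib.MP_c7af3c_ag.GEN.Interfaces

/-!
# MP_c7af3c_ag, project GEN, module CHAIN (helper19)
-/

set_option autoImplicit false

namespace Pool.Agent.Gen.H19

open MvPolynomial

theorem isAlg_mono {R S Ω : Type*} [Field R] [Field S] [Field Ω] [Algebra R Ω] [Algebra S Ω]
    (f : R →+* S) (hf : ∀ r, algebraMap S Ω (f r) = algebraMap R Ω r) {z : Ω}
    (h : IsAlgebraic R z) : IsAlgebraic S z := by
  obtain ⟨p, hp, hz⟩ := h
  refine ⟨p.map f, (Polynomial.map_ne_zero_iff f.injective).2 hp, ?_⟩
  rw [Polynomial.aeval_def, Polynomial.eval₂_map]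
  rw [Polynomial.aeval_def] at hz
  have e : (algebraMap S Ω).comp f = algebraMap R Ω := RingHom.ext hf
  rw [e]
  exact hz

section Fields

variable {k Ω : Type} [Field k] [Field Ω] [Algebra k Ω]

theorem mem_of_isAlg {E : IntermediateField k Ω} [IsAlgClosed E] {z : Ω} (h : IsAlgebraic E z) :
    z ∈ E := by
  have h1 := minpoly.irreducible h.isIntegral
  have h2 := IsAlgClosed.degree_eq_one_of_irreducible E h1
  obtain ⟨e, he⟩ := minpoly.mem_range_of_degree_eq_one E z h2
  rw [← he]
  exact e.2

/-- the relative algebraic closure of `B` -/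
noncomputable def acl (B : IntermediateField k Ω) : IntermediateField k Ω :=
  (algebraicClosure B Ω).restrictScalars k

theorem mem_acl {B : IntermediateField k Ω} {z : Ω} : z ∈ acl B ↔ IsAlgebraic B z := by
  unfold acl
  rw [IntermediateField.mem_restrictScalars, mem_algebraicClosure_iff]

theorem le_acl (B : IntermediateField k Ω) : B ≤ acl B := by
  intro z hz
  rw [mem_acl]
  exact isAlgebraic_algebraMap (⟨z, hz⟩ : B)

theorem isAlg_of_le {B C : IntermediateField k Ω} (h : B ≤ C) {z : Ω} (hz : IsAlgebraic B z) :
    IsAlgebraic C z :=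
  isAlg_mono (IntermediateField.inclusion h).toRingHom (fun _ => rfl) hz

theorem acl_le {B E : IntermediateField k Ω} [IsAlgClosed E] (h : B ≤ E) : acl B ≤ E := by
  intro z hz
  rw [mem_acl] at hz
  exact mem_of_isAlg (isAlg_of_le h hz)

theorem acl_acl {B : IntermediateField k Ω} {z : Ω} (hz : IsAlgebraic (acl B) z) : z ∈ acl B := by
  rw [mem_acl]
  have hz' : IsAlgebraic (algebraicClosure B Ω) z := hz
  exact hz'.restrictScalars B

theorem acl_isAlgClosed {B E : IntermediateField k Ω} [IsAlgClosed E] (h : B ≤ E) :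
    IsAlgClosed (acl B) := by
  apply IsAlgClosed.of_exists_root
  intro p hp _
  have hle := acl_le h
  have hdeg : (p.map (IntermediateField.inclusion hle).toRingHom).degree ≠ 0 := by
    rw [Polynomial.degree_map]
    intro h0
    exact (Polynomial.Monic.irreducible_iff_natDegree' hp |>.1 ‹_›).1
      (by
        have := Polynomial.eq_one_of_monic_natDegree_zero hp (Polynomial.natDegree_eq_of_degree_eq_some h0)
        exact this)
  obtain ⟨z, hz⟩ := IsAlgClosed.exists_root _ hdeg
  have hz2 : Polynomial.aeval (z : Ω) p = 0 := by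
    have h1 := congrArg (algebraMap E Ω) (hz : Polynomial.eval z _ = 0)
    rw [Polynomial.eval_map, map_zero, Polynomial.hom_eval₂] at h1
    rw [Polynomial.aeval_def]
    exact h1
  have hz3 : IsAlgebraic (acl B) (z : Ω) := ⟨p, hp.ne_zero, hz2⟩
  refine ⟨⟨(z : Ω), acl_acl hz3⟩, ?_⟩
  apply (algebraMap (acl B) Ω).injective
  rw [map_zero, ← Polynomial.aeval_algebraMap_apply_eq_algebraMap_eval]
  exact hz2

/-- one step of the chain, `γ` transcendental over `C` -/
theorem sup_le_adjoin (K C : IntermediateField k Ω) :
    (IntermediateField.adjoin C (K : Set Ω)).restrictScalars k = C ⊔ K := by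
  rw [IntermediateField.restrictScalars_adjoin_eq_sup, IntermediateField.adjoin_self]

/-- finitely many elements suffice -/
theorem exists_fin {ι : Type} [Finite ι] (K C : IntermediateField k Ω) (x : ι → Ω)
    (hx : ∀ j, x j ∈ K ⊔ C) : ∃ S : Finset Ω, (∀ s ∈ S, s ∈ C) ∧
      ∀ j, x j ∈ K ⊔ IntermediateField.adjoin k (S : Set Ω) := by
  classical
  have h1 : ∀ j, ∃ T : Finset Ω, (T : Set Ω) ⊆ (K : Set Ω) ∪ C ∧
      x j ∈ IntermediateField.adjoin k (T : Set Ω) := fun j =>
    IntermediateField.exists_finset_of_mem_adjoin (hx j)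
  choose T hT1 hT2 using h1
  have := Fintype.ofFinite ι
  refine ⟨(Finset.univ.biUnion T).filter (fun z => z ∈ C), fun s hs => (Finset.mem_filter.1 hs).2,
    fun j => ?_⟩
  refine (?_ : IntermediateField.adjoin k (T j : Set Ω) ≤ _) (hT2 j)
  rw [IntermediateField.adjoin_le_iff]
  intro z hz
  rcases hT1 j hz with h | h
  · exact (le_sup_left : K ≤ _) h
  · apply (le_sup_right : IntermediateField.adjoin k _ ≤ _)
    apply IntermediateField.subset_adjoin
    rw [Finset.mem_coe, Finset.mem_filter, Finset.mem_biUnion]
    exact ⟨⟨j, Finset.mem_univ _, hz⟩, h⟩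

end Fields

/-- the ambient field over a larger field of constants -/
noncomputable def ext (hL : LdtStatement) {k Ω : Type} [Field k] [Field Ω] [Algebra k Ω] {n c : ℕ}
    {d : Fin c → ℕ} (A : Amb k Ω n c d) (C : IntermediateField k Ω) (hC : C ≤ A.EE) :
    Amb C Ω n c d where
  KK := IntermediateField.adjoin C (A.KK : Set Ω)
  EE := IntermediateField.extendScalars hC
  ld := hL k Ω A.KK A.EE C hC A.ld
  D := A.D
  coeff_mem := fun m I => IntermediateField.subset_adjoin _ _ (A.coeff_mem m I)
  del_KK := by
    intro m I hI f hf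
    induction hf using IntermediateField.adjoin_induction with
    | mem x hx => exact IntermediateField.subset_adjoin _ _ (A.del_KK m I hI x hx)
    | algebraMap x =>
      have h1 : (algebraMap C Ω x) ∈ A.EE := hC x.2
      rw [A.del_EE m I hI _ h1]
      exact zero_mem _
    | add x y _ _ hx hy => rw [map_add]; exact add_mem hx hy
    | inv x hx h =>
      by_cases h0 : x = 0
      · rw [h0, inv_zero, map_zero]; exact zero_mem _
      · have h2 : x * A.D.del m I x⁻¹ + x⁻¹ * A.D.del m I x = 0 := by
          have h3 := (A.D.del m I).leibniz x x⁻¹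
          rw [mul_inv_cancel₀ h0, Derivation.map_one_eq_zero] at h3
          rw [smul_eq_mul, smul_eq_mul] at h3
          exact h3.symm
        have h4 : A.D.del m I x⁻¹ = - (x⁻¹ * x⁻¹ * A.D.del m I x) := by
          have h5 : x * A.D.del m I x⁻¹ = - (x⁻¹ * A.D.del m I x) := by linear_combination h2
          calc A.D.del m I x⁻¹ = x⁻¹ * (x * A.D.del m I x⁻¹) := by
                rw [← mul_assoc, inv_mul_cancel₀ h0, one_mul]
            _ = _ := by rw [h5]; ring
        rw [h4]
        exact neg_mem (mul_mem (mul_mem (inv_mem hx) (inv_mem hx)) h)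
    | mul x y hx' hy' hx hy =>
      rw [Derivation.leibniz, smul_eq_mul, smul_eq_mul]
      exact add_mem (mul_mem hx' hy) (mul_mem hy' hx)
  del_EE := fun m I hI f hf => A.del_EE m I hI f hf

theorem step (hR : RigidStatement) (hL : LdtStatement) {k Ω : Type} [Field k] [IsAlgClosed k] [CharZero k]
    [Field Ω] [Algebra k Ω] {n c : ℕ} {d : Fin c → ℕ} (A : Amb k Ω n c d)
    (hd : 2 * n + 2 ≤ c + ∑ m, d m)
    (x : Fin (n + 1) → Ω) (j0 : Fin (n + 1)) (hx0 : x j0 = 1) (hx : ∀ m, eval x (A.D.F m) = 0)
    (C C' : IntermediateField k Ω) [IsAlgClosed C] (hCC : C ≤ C') (hCE : C' ≤ A.EE) (γ : Ω) (hγ : γ ∈ C')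
    (halg : ∀ z ∈ C', IsAlgebraic (IntermediateField.adjoin C {γ}) z)
    (hxC : ∀ j, x j ∈ A.KK ⊔ C') : ∀ j, x j ∈ A.KK ⊔ C := by
  by_cases hγC : γ ∈ C
  · have h1 : IntermediateField.adjoin C {γ} = ⊥ := by
      rw [IntermediateField.adjoin_simple_eq_bot_iff, IntermediateField.mem_bot]
      exact ⟨⟨γ, hγC⟩, rfl⟩
    have h2 : C' ≤ C := by
      intro z hz
      have h3 := halg z hz
      rw [h1] at h3
      refine mem_of_isAlg (E := C) (isAlg_mono (IntermediateField.botEquiv C Ω).toRingEquiv.toRingHom
        (fun r => ?_) h3)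
      obtain ⟨e, he⟩ := (IntermediateField.botEquiv C Ω).symm.surjective r
      rw [← he]
      simp
    intro j
    exact (sup_le_sup_left h2 A.KK) (hxC j)
  · have htr : Transcendental C γ := fun h => hγC (mem_of_isAlg h)
    obtain ⟨S, hS1, hS2⟩ := exists_fin A.KK C' x hxC
    have hch : CharZero C := charZero_of_injective_algebraMap (algebraMap k C).injective
    have h1 := hR C Ω n c d (ext hL A C (hCC.trans hCE)) hd γ (hCE hγ) htr (S : Set Ω)
      S.finite_toSet (fun s hs => ⟨hCE (hS1 s hs), halg s (hS1 s hs)⟩) x j0 hx0 hx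
      (by
        intro j
        have h2 : A.KK ⊔ IntermediateField.adjoin k (S : Set Ω) ≤
            ((IntermediateField.adjoin (ext hL A C (hCC.trans hCE)).KK (insert γ (S : Set Ω))).restrictScalars
              C).restrictScalars k := by
          apply sup_le
          · intro z hz
            have h3 : z ∈ (ext hL A C (hCC.trans hCE)).KK := IntermediateField.subset_adjoin _ _ hz
            exact (IntermediateField.adjoin (ext hL A C (hCC.trans hCE)).KK
              (insert γ (S : Set Ω))).algebraMap_mem ⟨z, h3⟩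
          · rw [IntermediateField.adjoin_le_iff]
            intro z hz
            have h4 : z ∈ IntermediateField.adjoin (ext hL A C (hCC.trans hCE)).KK
                (insert γ (S : Set Ω)) :=
              IntermediateField.subset_adjoin (ext hL A C (hCC.trans hCE)).KK
                (insert γ (S : Set Ω)) (Set.mem_insert_of_mem _ hz)
            exact h4
        exact h2 (hS2 j))
    intro j
    have h4 := h1 j
    have h5 : x j ∈ (IntermediateField.adjoin C (A.KK : Set Ω)).restrictScalars k := h4
    rw [sup_le_adjoin, sup_comm] at h5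
    exact h5

theorem chain (hR : RigidStatement) (hL : LdtStatement) : ChainStatement := by
  intro k Ω _ _ _ _ _ n c d A hE hd x j0 hx0 hx hxE
  classical
  have key : ∀ Γ : Finset Ω, (∀ g ∈ Γ, g ∈ A.EE) →
      (∀ j, x j ∈ A.KK ⊔ acl (IntermediateField.adjoin k (Γ : Set Ω))) → ∀ j, x j ∈ A.KK := by
    intro Γ
    induction Γ using Finset.induction_on with
    | empty =>
      intro _ h j
      have h1 : acl (IntermediateField.adjoin k ((∅ : Finset Ω) : Set Ω)) ≤ ⊥ := by
        intro z hz
        rw [mem_acl] at hz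
        rw [Finset.coe_empty, IntermediateField.adjoin_empty] at hz
        have h2 : IsAlgebraic k z := by
          refine isAlg_mono (IntermediateField.botEquiv k Ω).toRingEquiv.toRingHom (fun r => ?_) hz
          obtain ⟨e, he⟩ := (IntermediateField.botEquiv k Ω).symm.surjective r
          rw [← he]
          simp
        have h3 := IsAlgClosed.degree_eq_one_of_irreducible k (minpoly.irreducible h2.isIntegral)
        obtain ⟨e, he⟩ := minpoly.mem_range_of_degree_eq_one k z h3
        rw [IntermediateField.mem_bot]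
        exact ⟨e, he⟩
      have h2 := (sup_le_sup_left h1 A.KK) (h j)
      rwa [sup_bot_eq] at h2
    | insert γ Γ hγ ih =>
      intro hΓ h
      have hle : ∀ T : Finset Ω, (∀ g ∈ T, g ∈ A.EE) → IntermediateField.adjoin k (T : Set Ω) ≤ A.EE := by
        intro T hT
        rw [IntermediateField.adjoin_le_iff]
        exact fun z hz => hT z hz
      have hΓ' : ∀ g ∈ Γ, g ∈ A.EE := fun g hg => hΓ g (Finset.mem_insert_of_mem hg)
      have hac := acl_isAlgClosed (hle Γ hΓ')
      refine ih hΓ' (step hR hL A hd x j0 hx0 hx (acl (IntermediateField.adjoin k (Γ : Set Ω)))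
        (acl (IntermediateField.adjoin k (insert γ Γ : Finset Ω))) ?_ (acl_le (hle _ hΓ)) γ ?_ ?_ h)
      · intro z hz
        rw [mem_acl] at hz ⊢
        apply isAlg_of_le _ hz
        apply IntermediateField.adjoin.mono
        rw [Finset.coe_insert]
        exact Set.subset_insert _ _
      · apply le_acl
        apply IntermediateField.subset_adjoin
        rw [Finset.coe_insert]
        exact Set.mem_insert _ _
      · intro z hz
        rw [mem_acl] at hz
        have h2 : IntermediateField.adjoin k ((insert γ Γ : Finset Ω) : Set Ω) ≤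
            (IntermediateField.adjoin (acl (IntermediateField.adjoin k (Γ : Set Ω))) {γ}).restrictScalars k := by
          rw [IntermediateField.adjoin_le_iff, Finset.coe_insert, Set.insert_subset_iff]
          constructor
          · exact IntermediateField.mem_adjoin_simple_self _ γ
          · intro g hg
            have h3 : g ∈ acl (IntermediateField.adjoin k (Γ : Set Ω)) :=
              le_acl _ (IntermediateField.subset_adjoin _ _ hg)
            exact (IntermediateField.adjoin (acl (IntermediateField.adjoin k (Γ : Set Ω)))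
              {γ}).algebraMap_mem ⟨g, h3⟩
        have h4 := isAlg_of_le h2 hz
        exact h4
  obtain ⟨S, hS1, hS2⟩ := exists_fin A.KK A.EE x hxE
  exact key S hS1 fun j => (sup_le_sup_left (le_acl _) A.KK) (hS2 j)

end Pool.Agent.Gen.H19
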